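import Mathlib
import Pool.Agent.Q64.M.Order
import Pool.Agent.Q64.L.InstC

/-!
# Orders of zeta functions and ranks of higher Chow groups for the products of arbitrary schemes
over finite fields with the abelian varieties of almost all slope types of all CM fields

Let `K i` (`i` in a finite set) be CM fields of degree `2 g i`. Nothing is assumed about their
Galois groups. They are pairwise independent: for `i ≠ k` and all complex embeddings `φ` of `K i`
and `ψ` of `K k` some automorphism of `ℂ` is the identity on `φ (K i)` and the complex conjugation
on `ψ (K k)` (this is no condition if there is only one field). We fix an isomorphism `ν` of the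
algebraic closure of `ℚ_p` with `ℂ`; it defines a `p`-adic valuation of `ℂ`, with the value one at
`p`. Let `M i` be a function with nonzero integral values, all of which divide `n i`, on the
complex embeddings of `K i`, invariant under complex conjugation. A CM type `Φ i` of `K i` (a
choice of one element out of each complex conjugate pair of embeddings; there are `2 ^ (g i)`
types), `M i` and a real number `κ ≠ 0` prescribe the slopes `(a + κ M) / 2` (at the embeddings in
`Φ i`) and `(a - κ M) / 2` (outside of `Φ i`) of a Weil number for `p ^ a` in `K i` (`HasType`).
The case `M = 1`, `κ = a` is the case of ordinary abelian varieties; the assumption on `M` says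
that `a / 2` is not a slope.

There are `2 ^ (∑ i, g i)` families of CM types `Φ i` of the fields `K i`. A family is exceptional
(`exceptionalFamilies ν K M`) if the following statement (`Holds`) is false for it. Let `π i` be
Weil numbers for `q = p ^ a` that generate the fields `K i` and have the slope types `Φ i`, `M i`,
and let `f i` be monic polynomials whose complex roots are conjugates of `π i` (`IsPolyOf`), for
instance the characteristic polynomials of Frobenius of the abelian varieties in the isogeny
classes of the `π i` over the field with `q` elements. Let `A` be an abelian variety over the field
with `Q = q ^ s` elements which is isogenous to a product of powers of abelian varieties coming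
from the field with `q` elements, with characteristic polynomials `f i`, and let `X` be **any**
separated scheme of finite type over the field with `Q` elements (singular, reducible, not proper)
such that

* the eigenvalues `ρ` of Frobenius on the `ℓ`-adic homology of `X` and their conjugates are
  unrelated to the fields `K i` (`UnrelatedTo`): a function `n` on the complex embeddings of `K i`
  with `n (conj φ) = - n φ` which is invariant under all automorphisms of `ℂ` that fix a power of
  `ρ` is zero. This is so if for each embedding `ψ` of `K i` some automorphism which fixes a power
  of `ρ` is the complex conjugation on `ψ (K i)`: for instance, if a power of `ρ` lies in a field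
  linearly disjoint from the normal closures of the `K i`, or in a totally real field. It is also
  so if the degree of `ρ` is less than twice the dimension of each nonzero space of functions `n`
  stable under all automorphisms of `ℂ`;
* the Frobenius endomorphism of `X` satisfies on each group `CH_n(A × X, i)_ℚ` a nonzero polynomial
  with rational coefficients whose complex roots are unrelated to the `K i`. For instance this is
  so if the motive of `X` is built from finite-dimensional motives (Kimura) of smooth projective
  varieties which satisfy the first condition.

**For every integer `N` the following are equivalent: Q2 is true for `A × X` at all integers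
`n ≥ N + dim A`; Q2 is true for `X` at all integers `n ≥ N`.** Here Q2 for `X` at `n` (that is, for
`r = dim X - n`) is the statement (`OrderFormulaN`): the ranks of the groups `CH_n(X, i)` are
finite, and zero for all but finitely many `i`, and their alternating sum is the order of the pole
of `ζ_X(s)` at `s = n`. In particular Q2 is true for `A × X` and all `r` if and only if it is true
for `X` and all `r`.

By the trace formula of Grothendieck the order of the pole of `ζ_X(s)` at `s = n` is the
alternating sum of the multiplicities of the eigenvalue `Q ^ n` of Frobenius on the groups
`H_c ^ a (X)`, which is the multiplicity of the eigenvalue `Q ^ (-n)` on the dual group `H_a(X)`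
(`multN`, `multM`).

The conjectures of Tate, Beilinson and Parshin, or finite generation, are not assumed: both sides
of the equivalence are numerical statements, in which cancellations between the groups of different
degrees are possible. Since there are no inequalities between the ranks and the orders which are
known for all `X`, the equivalence for a single `n` is not formal: it is proved for all `n` above a
bound, by induction from the top.

What is used of `A` are known theorems (`IsAbelian`): `H(A)` is generated by `H^1`, Frobenius is
diagonalizable on `H^1` (Weil), the theorem of Tate on divisors, and the nilpotence of
homologically trivial correspondences (Kimura). The theories `T` (higher Chow groups with rational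
coefficients) and `R` (`ℓ`-adic homology, `L` is the coefficient field) of `X` and `A × X` are
modelled by `RelData`, with the formal properties in `IsTheory`: degrees, products with classes on
`A`, push-forward to `X`, the projection formula, the operation of the correspondences of `A` and
of the Frobenius endomorphism of `X`. The group of bidegree `(i, j)` of `X` is `H_(-i)(X, -j)`, and
the group of bidegree `(i, j)` of `A × X` is `H_(2 d - i)(A × X, d - j)`, `d = dim A`, where in
motivic homology `CH_n(X, i) = H_(2 n + i)(X, n)`. The operator `frobN`, `frobM` is the inverse of
the push-forward by the Frobenius endomorphism of `X`; then the Frobenius endomorphism of `A × X`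
is the multiplication by `Q ^ j` on the higher Chow groups (`IsPure`). `FiniteEig`, `IsLinear` (the
operations are `L`-linear) and `IsFiniteDimensional` are standard. `altSum` is the alternating sum
of a function with finite support.

The theorem bounds the number of the exceptional families: it is at most
`2 ^ (∑ i, g i) * ∑ i, C * (n i) ^ 2 * (1 + log (2 g i)) ^ 16 * min (N ^ 2 * D ^ (1 / 4) / √g, √g / q)`
with an absolute constant `C`. Here, for `K = K i` and `g = g i`, `N` is the number of the CM
subfields of `K` (with `K`), `D = D i ≥ 1` is a bound for the degrees of the CM subfields of `K`
that are normal over `ℚ` with a nonabelian Galois group, and `q = q i` is any prime factor of `g`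
(or `q = 1`). So the exceptional types are a proportion `O (n ^ 2 * g ^ (-1 / 4) * (log g) ^ 16)`
of all types of all CM fields with a bounded number of CM subfields,
`O (n ^ 2 * g ^ (-1 / 2) * (log g) ^ 16)` if the normal nonabelian ones have bounded degrees, and
`O (n ^ 2 * g ^ (-δ) * (log g) ^ 16)` for all CM fields, with any number of subfields, whose degree
is divisible by a prime number `q ≥ g ^ (1 / 2 + δ)`. Some assumption is necessary: almost all
types of a multiquadratic CM field are degenerate. The counting part (the bound for the number of
the degenerate types) is the one of `AllCMFields` (MP_e12fcd_ag), by helper1 and others of this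
team.

The proof. Suppose that the product of `ρ` and of some eigenvalues `φ (π i)` of `A`, no two of them
complex conjugate, is a power of `q`, up to a root of unity. For an automorphism `σ` of `ℂ` the
`p`-adic valuations of the images under `σ` give a linear relation between the signed weights
`± M i (σ φ)` whose right side is a function of the valuation of `σ ρ`. It does not change if `σ`
is multiplied by an automorphism `τ` which fixes a power of `ρ`. The difference of the two
relations is homogeneous; if the types are not degenerate it is trivial, so that the differences of
the exponents of complex conjugate embeddings are invariant under `τ`. So they are zero, as `ρ` is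
unrelated to the fields `K i`. It follows that, on the generalized eigenspace of Frobenius for the
power of `Q` in question in the cohomology or homology of the product of `A` with the other factor,
the correspondence on `A` given by the sum of the products of dual classes of products of divisors
acts as the identity: the Frobenius endomorphism of `A` satisfies there a power of the polynomial
reciprocal to that of the Frobenius on the other factor, this polynomial is prime to the one whose
value on `H(A)` lies in the part generated by divisors, and the difference of the two
correspondences is nilpotent. So the higher Chow groups of `A × X` and the generalized eigenspaces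
for `A × X` are the direct sums of the products of finitely many products of divisors on `A` with
those of `X`.
-/

set_option autoImplicit false

namespace Pool.Agent.Results.MP_666bea_ag.AllCMTypesTimes

open NumberField Module Pool.Agent.H204R3.CM Pool.Agent.H977R3.CM Pool.Agent.TH170
  Pool.Agent.Y1.KN Pool.Agent.Y1.CT Pool.Agent.Q64.L Pool.Agent.Q64.M

/-- The statement `OrderReduces` holds for all abelian varieties `A` whose Frobenius eigenvalues
are powers of conjugates of Weil numbers with the slope types `Φ i`, `M i`, and all schemes
unrelated to the fields `K i`. -/
def Holds {p : ℕ} [Fact p.Prime] (ν : PadicAlgCl p ≃+* ℂ) {I : Type} (K : I → Type)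
    [∀ i, Field (K i)] [∀ i, NumberField (K i)] [∀ i, IsCMField (K i)]
    (M : ∀ i, (K i →+* ℂ) → ℤ) (Φ : ∀ i, Set (K i →+* ℂ)) : Prop :=
  ForAllTypes ν K M (fun q f => OrderReduces (UnrelatedRoots K) q f) Φ

/-- The exceptional families of CM types. -/
def exceptionalFamilies {p : ℕ} [Fact p.Prime] (ν : PadicAlgCl p ≃+* ℂ) {I : Type} (K : I → Type)
    [∀ i, Field (K i)] [∀ i, NumberField (K i)] [∀ i, IsCMField (K i)]
    (M : ∀ i, (K i →+* ℂ) → ℤ) : Set (∀ i, Set (K i →+* ℂ)) :=
  {Φ | (∀ i, IsCMType (Φ i)) ∧ ¬ Holds ν K M Φ}

/-- **The formula of Bloch and Soule holds for `A × X` if and only if it holds for `X`, for the
abelian varieties `A` of almost all slope types of all CM fields and all unrelated schemes.** -/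
theorem result :
    ∃ C : ℝ, 0 ≤ C ∧ ∀ (p : ℕ) [Fact p.Prime] (ν : PadicAlgCl p ≃+* ℂ) (I : Type) [Fintype I]
      (K : I → Type) [∀ i, Field (K i)] [∀ i, NumberField (K i)] [∀ i, IsCMField (K i)]
      (M : ∀ i, (K i →+* ℂ) → ℤ) (n g q : I → ℕ) (D : I → ℝ), PairwiseIndep K →
      (∀ i φ, M i (ComplexEmbedding.conjugate φ) = M i φ) → (∀ i, n i ≠ 0) →
      (∀ i φ, M i φ ∣ (n i : ℤ)) → (∀ i, finrank ℚ (K i) = 2 * g i) →
      (∀ i, q i ∣ g i ∧ (q i = 1 ∨ (q i).Prime)) → (∀ i, 1 ≤ D i) →
      (∀ (i : I) (L : IntermediateField ℚ (K i)), IsCMField L → IsGalois ℚ L →
        ¬ IsAbelianGalois ℚ L → (finrank ℚ L : ℝ) ≤ D i) →
      ((exceptionalFamilies ν K M).ncard : ℝ) ≤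
        2 ^ (∑ i, g i) * ∑ i, C * (n i : ℝ) ^ 2 * ((1 + Real.log (2 * g i)) ^ 16 *
          min ((numCMSubfields (K i) : ℝ) ^ 2 * D i ^ (1 / 4 : ℝ) / √(g i)) (√(g i) / q i)) := by
  obtain ⟨C, hC0, hC⟩ := countC
  refine ⟨C, hC0, ?_⟩
  intro p _ ν I _ K _ _ _ M n g q D hind hM hn hMn hg hq hD hDF
  exact hC p ν I K M n g q D hind hM hn hMn hg hq hD hDF _
    fun Q f hQ hG => orderReduces hQ hG

end Pool.Agent.Results.MP_666bea_ag.AllCMTypesTimes
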