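import Mathlib
import Pool.Agent.Q64.M.Order
import Pool.Agent.Q64.L.InstA

/-!
# Orders of zeta functions and ranks of higher Chow groups for the products of arbitrary schemes
over finite fields with almost all abelian varieties

Let `g i` (`i` in a finite set `I`) be positive integers, `r` an integer smaller than all the `g i`
and `E` a number field.  For a prime power `q` let `S i` be the set of the characteristic
polynomials of Frobenius of the ordinary abelian varieties of dimension `g i` over the field with
`q` elements, or of all abelian varieties of dimension `g i`, or any set in between.  By Weil,
Honda and Tate its elements correspond to the isogeny classes, the first set contains
`ordinaryWeilPolys q (g i)`, and the second one is contained in `weilPolys q (g i)`.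

For almost all families `f i` in `S i` (`AlmostAll`: with the exception of a proportion
`O (q ^ (-1 / 6) log q)`, the constant depending only on `g`, `r` and `E`) the following holds for
all `s > 0`, `Q = q ^ s`, and all abelian varieties `A` over the field with `Q` elements which are
isogenous to products of powers of abelian varieties coming from the field with `q` elements, with
characteristic polynomials `f i`, and let `X` be **any** separated scheme of finite type over the
field with `Q` elements (singular, reducible, not proper) such that

* the eigenvalues of Frobenius on the `ℓ`-adic homology of `X` and their conjugates generate a
  group of rank at most `r` modulo the group of the numbers with a power in `E` (for `r = 0`: they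
  have powers in `E`);
* the Frobenius endomorphism of `X` satisfies on each group `CH_n(A × X, i)_ℚ` a nonzero polynomial
  with rational coefficients whose complex roots have the same property. For instance this is so if
  the motive of `X` is built from finite-dimensional motives (Kimura) of smooth projective
  varieties which satisfy the first condition.

**For every integer `N` the following are equivalent: Q2 is true for `A × X` at all integers
`n ≥ N + dim A`; Q2 is true for `X` at all integers `n ≥ N`.** Here Q2 for `X` at `n` (that is, for
`r = dim X - n`) is the statement (`OrderFormulaN`): the ranks of the groups `CH_n(X, i)` are
finite, and zero for all but finitely many `i`, and their alternating sum is the order of the pole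
of `ζ_X(s)` at `s = n`. In particular Q2 is true for `A × X` and all `r` if and only if it is true
for `X` and all `r`.

By the trace formula of Grothendieck the order of the pole of `ζ_X(s)` at `s = n` is the
alternating sum of the multiplicities of the eigenvalue `Q ^ n` of Frobenius on the groups
`H_c ^ a (X)`, which is the multiplicity of the eigenvalue `Q ^ (-n)` on the dual group `H_a(X)`
(`multN`, `multM`).

The conjectures of Tate, Beilinson and Parshin, or finite generation, are not assumed: both sides
of the equivalence are numerical statements, in which cancellations between the groups of different
degrees are possible. Since there are no inequalities between the ranks and the orders which are
known for all `X`, the equivalence for a single `n` is not formal: it is proved for all `n` above a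
bound, by induction from the top.

What is used of `A` are known theorems (`IsAbelian`): `H(A)` is generated by `H^1`, Frobenius is
diagonalizable on `H^1` (Weil), the theorem of Tate on divisors, and the nilpotence of
homologically trivial correspondences (Kimura). The theories `T` (higher Chow groups with rational
coefficients) and `R` (`ℓ`-adic homology, `L` is the coefficient field) of `X` and `A × X` are
modelled by `RelData`, with the formal properties in `IsTheory`: degrees, products with classes on
`A`, push-forward to `X`, the projection formula, the operation of the correspondences of `A` and
of the Frobenius endomorphism of `X`. The group of bidegree `(i, j)` of `X` is `H_(-i)(X, -j)`, and
the group of bidegree `(i, j)` of `A × X` is `H_(2 d - i)(A × X, d - j)`, `d = dim A`, where in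
motivic homology `CH_n(X, i) = H_(2 n + i)(X, n)`. The operator `frobN`, `frobM` is the inverse of
the push-forward by the Frobenius endomorphism of `X`; then the Frobenius endomorphism of `A × X`
is the multiplication by `Q ^ j` on the higher Chow groups (`IsPure`). `FiniteEig`, `IsLinear` (the
operations are `L`-linear) and `IsFiniteDimensional` are standard. `altSum` is the alternating sum
of a function with finite support.

The proof: by a sieve (helper521), which only uses the primes that split completely in the Galois
closure of `E` - these have positive density by the theorem of Chebotarev, formalized by helper401
- almost all families are such that each pair `α`, `q / α` of roots can be exchanged by a Galois
automorphism which fixes all the other roots of all the `f i` and also all elements of `E`. It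
follows that, on the generalized eigenspace of Frobenius for the power of `Q` in question in the
cohomology or homology of the product of `A` with the other factor, the correspondence on `A` given
by the sum of the products of dual classes of products of divisors acts as the identity: the
Frobenius endomorphism of `A` satisfies there a power of the polynomial reciprocal to that of the
Frobenius on the other factor, this polynomial is prime to the one whose value on `H(A)` lies in
the part generated by divisors, and the difference of the two correspondences is nilpotent. So the
higher Chow groups of `A × X` and the generalized eigenspaces for `A × X` are the direct sums of
the products of finitely many products of divisors on `A` with those of `X`.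
-/

set_option autoImplicit false

namespace Pool.Agent.Results.MP_666bea_ag.AlmostAllTimes

open Pool.Agent.Y156.L Pool.Agent.Q64.L Pool.Agent.Q64.M

/-- **The formula of Bloch and Soule holds for `A × X` if and only if it holds for `X`, for almost
all abelian varieties `A` and all schemes of small Frobenius rank.** -/
theorem result {I : Type} [Fintype I] (g : I → ℕ) (r : ℕ) (hr : ∀ i, r < g i)
    (E : IntermediateField ℚ ℂ) [FiniteDimensional ℚ E] :
    AlmostAll g fun q F => OrderReduces (RootsRank E r) q F :=
  countA g r hr E (fun q F => OrderReduces (RootsRank E r) q F) fun _ _ hq hG => orderReduces hq hG

end Pool.Agent.Results.MP_666bea_ag.AlmostAllTimes
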