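import Pool.Agent.Q193.Zeta.One
import Pool.Agent.Q193.LT.Mod

/-!
# The zeta functions of all schemes of finite type over `ℤ` and the cubics `∑_{(i,j,l) ∈ H} x_i y_j z_l = 1`

For a scheme `X` of finite type over `ℤ` let `ζ_X(s) = ∏ (1 - N(x)^{-s})⁻¹` be the Euler product over the
closed points `x` of `X`, where `N(x)` is the number of elements of the residue field. `Continues X` says
that `ζ_X` extends to a meromorphic function on `ℂ` (Q1 for `X`, in the form of the frozen statement `S00215`).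

For a finite set `H` of triples `(i, j, l)` (a tripartite hypergraph) let `X_H` be the affine cubic
hypersurface `∑_{(i, j, l) ∈ H} x_i y_j z_l = 1` over `ℤ`. For a trilinear form
`T(x, y, z) = ∑ t_{ijl} x_i y_j z_l` over `ℤ`, in any numbers of variables `x_1, …, x_a`, `y_1, …, y_b`,
`z_1, …, z_c`, let `X_T` be the affine cubic hypersurface `T(x, y, z) = 1` over `ℤ`. Let `θ` be the operator
`(θ Z)(s) = Z(s - 1) / Z(s)` on functions (so `θ ζ_X = ζ_{X × 𝔾_m}`).

**Theorem** (no hypotheses). (1) For every scheme `X` of finite type over `ℤ` there are `k ≥ 0`, finitely many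
sets of triples `H_1, …, H_r` and integers `n_i`, `e_i` such that
`(θ^k ζ_X)(s) = ∏ ζ_{X_{H_i}}(s + n_i)^{e_i}` in some half-plane `Re(s) > σ`.

(2) For every closed subscheme `X` of the affine space `𝔸^N` over `ℤ` there are `k ≥ 0`, finitely many
trilinear forms `T_1, …, T_r`, such that one of the three blocks of variables of `T_i` has at most `N + 1`
variables, and integers `n_i`, `e_i` such that `(θ^k ζ_X)(s) = ∏ ζ_{X_{T_i}}(s + n_i)^{e_i}` in some
half-plane.

(3) `ζ_X` extends to a meromorphic function on `ℂ` for all schemes `X` of finite type over `ℤ` if and only if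
this is true for all the hypersurfaces `X_H`.

(4) For each `N`, `ζ_X` extends meromorphically for all closed subschemes `X` of `𝔸^N` over `ℤ` if and only
if it does so for all the hypersurfaces `X_T` such that one of the three blocks of variables has at most
`N + 1` variables (the other two blocks are arbitrary).

The proof uses the Euler product formula for `log ζ_X` as a Dirichlet series whose coefficients are
`|X(𝔽_{p^n})| / n` (with convergence in a half-plane, which is proved here from a bound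
`|X(𝔽_q)| ≤ C q^k`), the multiplicativity of `ζ` for closed-open decompositions, the formula
`ζ_{A × 𝔸^n}(s) = ζ_A(s - n)`, the affine bundles of Jouanolou, and the reconstruction of a function `Z` from
`θ Z` by an infinite product that is eventually known.
-/

set_option autoImplicit false

open CategoryTheory CategoryTheory.Limits AlgebraicGeometry Pool.Agent.Y116.UV Pool.Agent.Z125.UN
  Pool.Agent.Q193.LT Pool.Agent.Q193.Zeta MvPolynomial

namespace Pool.Agent.Results.MP_666bea_ag.HypergraphZeta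

/-- The Euler product `∏ (1 - N(x)^{-s})⁻¹` over the closed points `x` of `X`. -/
noncomputable def eulerProduct (X : Scheme.{0}) (s : ℂ) : ℂ :=
  ∏' x : {x : X // IsClosed ({x} : Set X)}, (1 - ((Nat.card (X.residueField x.1) : ℂ) ^ (-s)))⁻¹

/-- The Euler product over the closed points of `X` extends to a meromorphic function on `ℂ`. -/
def Continues (X : Scheme.{0}) : Prop :=
  ∃ F : ℂ → ℂ, MeromorphicOn F Set.univ ∧ ∃ σ : ℝ, ∀ s : ℂ, σ < s.re → F s = eulerProduct X s

/-- `X` is of finite type over `ℤ`. -/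
def FiniteTypeZ (X : Scheme.{0}) : Prop :=
  ∃ f : X ⟶ Spec (CommRingCat.of ℤ), LocallyOfFiniteType f ∧ QuasiCompact f

/-- The closed subscheme `I = 0` of the affine space of dimension `N` over `ℤ`. -/
noncomputable def sub {N : ℕ} (I : Ideal (MvPolynomial (Fin N) ℤ)) : Scheme.{0} :=
  Spec (CommRingCat.of (MvPolynomial (Fin N) ℤ ⧸ I))

/-- The hypersurface `∑_{(i, j, l) ∈ H} x_i y_j z_l = 1` over `ℤ`. -/
noncomputable def setCubic {a b c : ℕ} (H : Finset (Fin a × Fin b × Fin c)) : Scheme.{0} :=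
  Spec (CommRingCat.of (MvPolynomial (Fin a ⊕ (Fin b ⊕ Fin c)) ℤ ⧸ Ideal.span
    {∑ h ∈ H, X (Sum.inl h.1) * X (Sum.inr (Sum.inl h.2.1)) * X (Sum.inr (Sum.inr h.2.2)) -
      (1 : MvPolynomial (Fin a ⊕ (Fin b ⊕ Fin c)) ℤ)}))

/-- The hypersurface `∑ T i j l x_i y_j z_l = 1` over `ℤ`. -/
noncomputable def formCubic {a b c : ℕ} (T : Fin a → Fin b → Fin c → ℤ) : Scheme.{0} :=
  Spec (CommRingCat.of (MvPolynomial (Fin a ⊕ (Fin b ⊕ Fin c)) ℤ ⧸ Ideal.span
    {∑ i, ∑ j, ∑ l, C (T i j l) * X (Sum.inl i) * X (Sum.inr (Sum.inl j)) * X (Sum.inr (Sum.inr l)) -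
      (1 : MvPolynomial (Fin a ⊕ (Fin b ⊕ Fin c)) ℤ)}))

/-- The hypersurfaces `∑_{(i, j, l) ∈ H} x_i y_j z_l = 1` for all finite sets `H` of triples. -/
def SetCubics : Set Scheme.{0} :=
  {X | ∃ (a b c : ℕ) (H : Finset (Fin a × Fin b × Fin c)), X = setCubic H}

/-- The hypersurfaces `T(x, y, z) = 1` for all trilinear forms `T` over `ℤ` such that one of the three blocks
of variables has at most `m` variables. -/
def FormCubics (m : ℕ) : Set Scheme.{0} :=
  {X | ∃ (a b c : ℕ) (T : Fin a → Fin b → Fin c → ℤ), (a ≤ m ∨ b ≤ m ∨ c ≤ m) ∧ X = formCubic T}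

/-- The operator `(θ Z)(s) = Z(s - 1) / Z(s)`. -/
noncomputable def theta (Z : ℂ → ℂ) : ℂ → ℂ := fun s => Z (s - 1) / Z s

/-- `Z` is, in some half-plane, a finite product of integral powers of the functions `ζ_Y(s + n)` for
`Y ∈ S` and integers `n`. -/
def IsProductOf (S : Set Scheme.{0}) (Z : ℂ → ℂ) : Prop :=
  ∃ (L : List (S × ℤ × ℤ)) (σ : ℝ), ∀ s : ℂ, σ < s.re →
    Z s = (L.map fun p => eulerProduct p.1 (s + p.2.1) ^ p.2.2).prod

/-- the zeta functions of the elements of `S` -/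
noncomputable abbrev gen (S : Set Scheme.{0}) : S → ℂ → ℂ := fun Y => eulerProduct Y

lemma class_of {S : Set Scheme.{0}} (h : (tripS ℤ oneEdge).left ∈ S) :
    IsClass (IsTorusProd (gen S)) := by
  refine class_prod fun n => ?_
  have h1 : IsProd (gen S) (gm^[2] (zeta (aff ℤ ℤ).left)) :=
    (IsProd.of (G := gen S) ⟨_, h⟩).congr near_one
  refine ⟨2, IsProd.congr (near_iter 2 (near_space n)) ?_⟩
  rw [iter_shift]
  exact h1.shift (-n)

lemma one_set : (tripS ℤ oneEdge).left ∈ SetCubics := ⟨1, 1, 1, oneEdge, rfl⟩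

lemma one_form (m : ℕ) : (tripS ℤ oneEdge).left ∈ FormCubics (m + 1) := by
  refine ⟨1, 1, 1, fun _ _ _ => 1, Or.inl (Nat.le_add_left 1 m), ?_⟩
  have h : ∑ h ∈ oneEdge, X (Sum.inl h.1) * X (Sum.inr (Sum.inl h.2.1)) *
      X (Sum.inr (Sum.inr h.2.2)) - (1 : MvPolynomial (Fin 1 ⊕ (Fin 1 ⊕ Fin 1)) ℤ) =
      ∑ i : Fin 1, ∑ j : Fin 1, ∑ l : Fin 1, C (1 : ℤ) * X (Sum.inl i) * X (Sum.inr (Sum.inl j)) *
      X (Sum.inr (Sum.inr l)) - (1 : MvPolynomial (Fin 1 ⊕ (Fin 1 ⊕ Fin 1)) ℤ) := by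
    simp [oneEdge]
  change Spec (CommRingCat.of (MvPolynomial (Fin 1 ⊕ (Fin 1 ⊕ Fin 1)) ℤ ⧸ Ideal.span {_})) = _
  rw [h]
  rfl

/-- **The zeta functions of all schemes of finite type over `ℤ`.** See the explanations above. -/
theorem result :
    (∀ X : Scheme.{0}, FiniteTypeZ X →
      ∃ k : ℕ, IsProductOf SetCubics (theta^[k] (eulerProduct X))) ∧
    (∀ (N : ℕ) (I : Ideal (MvPolynomial (Fin N) ℤ)),
      ∃ k : ℕ, IsProductOf (FormCubics (N + 1)) (theta^[k] (eulerProduct (sub I)))) ∧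
    ((∀ X : Scheme.{0}, FiniteTypeZ X → Continues X) ↔ ∀ X ∈ SetCubics, Continues X) ∧
    ∀ N : ℕ, (∀ I : Ideal (MvPolynomial (Fin N) ℤ), Continues (sub I)) ↔
      ∀ X ∈ FormCubics (N + 1), Continues X := by
  have h1 : Bnd False Co := bnd_co
  refine ⟨fun X ⟨f, hf1, hf2⟩ => ?_, fun N I => ?_, ⟨fun h X hX => ?_, fun h X ⟨f, hf1, hf2⟩ => ?_⟩,
    fun N => ⟨fun h X hX => ?_, fun h I => ?_⟩⟩
  · exact universal_frac (frac_of_surj fun r => ⟨r, rfl⟩) (bnd_class (class_of one_set)).toUni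
      (P := fun Y => IsTorusProd (gen SetCubics) (zeta Y.left))
      (fun a b c H => ⟨0, IsProd.of (G := gen SetCubics) ⟨_, a, b, c, H, rfl⟩⟩)
      (Over.mk f) ⟨hf1, hf2, fun h => h.elim⟩
  · exact (graded (bnd_class (class_of (one_form N))) N).mpr (fun a b T =>
      ⟨0, IsProd.of (G := gen (FormCubics (N + 1)))
        ⟨_, a, b, N + 1, T, Or.inr (Or.inr le_rfl), rfl⟩⟩) I
  · obtain ⟨a, b, c, H, rfl⟩ := hX
    exact h _ ⟨(tripS ℤ H).hom, (ft_aff False).1, (ft_aff False).2⟩
  · exact universal_frac (frac_of_surj fun r => ⟨r, rfl⟩) h1.toUni (P := Co)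
      (fun a b c H => h _ ⟨a, b, c, H, rfl⟩) (Over.mk f) ⟨hf1, hf2, fun h => h.elim⟩
  · obtain ⟨a, b, c, T, hm, rfl⟩ := hX
    have h2 : ∀ I : Ideal (MvPolynomial (Fin N) ℤ), Co (aff ℤ (MvPolynomial (Fin N) ℤ ⧸ I)) := h
    exact of_block h1 (fun a b c' hc' T => to_tri h1 h2 a b c' hc' T) T hm
  · exact (graded h1 N).mpr
      (fun a b T => h _ ⟨a, b, N + 1, T, Or.inr (Or.inr le_rfl), rfl⟩) I

end Pool.Agent.Results.MP_666bea_ag.HypergraphZeta
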