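import Pool.Agent.Q282.UZ.Ord

/-!
# MP_666bea_ag, Q2: zeta orders, ranks of higher Chow groups and three-term bilinear systems

For a scheme `X` of finite type over `ℤ` let `eulerProduct X` be the Euler product over the closed points
of `X`, and let `A m k X = CH_m(X, k) ⊗ ℚ` (cycles of dimension `m + k` on `X × Δ^k`; it is
`CH^r(X, k) ⊗ ℚ` with `r = d - m`, `d = dim X`). The hypothesis `IsChow A` of the theorem collects known
properties of these groups (Bloch, Levine).
-/

set_option autoImplicit false

open CategoryTheory AlgebraicGeometry MvPolynomial Pool.Agent.Y116.UV Pool.Agent.Q282.UZ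

universe w

namespace Pool.Agent.Results.MP_666bea_ag.OrdersOfThreeTermSystems

/-- The Euler product `∏ (1 - N(x)^{-s})⁻¹` over the closed points `x` of `X`. -/
noncomputable def eulerProduct (X : Scheme.{0}) (s : ℂ) : ℂ :=
  ∏' x : {x : X // IsClosed ({x} : Set X)}, (1 - ((Nat.card (X.residueField x.1) : ℂ) ^ (-s)))⁻¹

/-- **The assertions of Q1 and Q2 for `X`**: there is a function `F`, meromorphic on `ℂ`, which is equal to
the Euler product of `X` in some half-plane; for all integers `m` the spaces `A m k X`, `k ∈ ℤ`, are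
finite-dimensional and almost all zero (`FinRank`), and the order of `F` at `s = m` is
`-∑ (-1)^k dim A m k X`. -/
def BlochSoule (A : ℤ → ℤ → Sch ℤ → ModuleCat.{w} ℚ) (X : Sch ℤ) : Prop :=
  ∃ F : ℂ → ℂ, MeromorphicOn F Set.univ ∧
    (∃ σ : ℝ, ∀ s : ℂ, σ < s.re → F s = eulerProduct X.left s) ∧
    ∀ m : ℤ, FinRank (A m) X ∧ meromorphicOrderAt F (m : ℂ) =
      ((-∑ᶠ k : ℤ, (k.negOnePow : ℤ) * (Module.finrank ℚ (A m k X) : ℤ) : ℤ) : WithTop ℤ)

/-- The Euler product over the closed points of `X` extends to a meromorphic function on `ℂ` (Q1 for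
`X`). -/
def Continues (X : Sch ℤ) : Prop :=
  ∃ F : ℂ → ℂ, MeromorphicOn F Set.univ ∧ ∃ σ : ℝ, ∀ s : ℂ, σ < s.re → F s = eulerProduct X.left s

/-- `P` is true for all schemes of finite type over `ℤ`. -/
def ForAllSchemes (P : Sch ℤ → Prop) : Prop :=
  ∀ X : Sch ℤ, LocallyOfFiniteType X.hom → QuasiCompact X.hom → P X

/-- `P` is true for all affine schemes `Y_E` over `ℤ` given by systems of bilinear equations
`∑_{(i, j) ∈ E_l} x_i y_j = 0`, `l = 1, …, c`, with at most three terms in every equation. -/
def ForThreeTermSystems (P : Sch ℤ → Prop) : Prop :=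
  ∀ (a b c : ℕ) (E : Fin c → Finset (Fin a × Fin b)), (∀ l, (E l).card ≤ 3) →
    P (aff ℤ (MvPolynomial (Fin a ⊕ Fin b) ℤ ⧸ Ideal.span (Set.range fun l =>
      ∑ e ∈ E l, (X (Sum.inl e.1) * X (Sum.inr e.2) : MvPolynomial (Fin a ⊕ Fin b) ℤ))))

lemma clo_co : Pool.Agent.Q282.UK.Clo False Pool.Agent.Q193.Zeta.Co where
  iso := Pool.Agent.Q193.Zeta.bnd_co.iso
  total := Pool.Agent.Q193.Zeta.bnd_co.total
  opened := Pool.Agent.Q193.Zeta.bnd_co.opened
  torus := Pool.Agent.Q193.Zeta.bnd_co.torus

/-- **Theorem.** (1) The zeta functions of all schemes of finite type over `ℤ` extend to meromorphic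
functions on `ℂ` (Q1) if and only if those of the systems of bilinear equations with at most three terms
do. (2) For all families `A m k X` with the properties `IsChow A`: the assertions of Q1 and Q2 are true
for all schemes of finite type over `ℤ` if and only if they are true for the systems of bilinear equations
with at most three terms. -/
theorem result :
    (ForAllSchemes Continues ↔ ForThreeTermSystems Continues) ∧
    ∀ A : ℤ → ℤ → Sch ℤ → ModuleCat.{w} ℚ, IsChow A →
      (ForAllSchemes (BlochSoule A) ↔ ForThreeTermSystems (BlochSoule A)) := by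
  have key : ∀ P : Sch ℤ → Prop, Pool.Agent.Q282.UK.Clo False P →
      (ForAllSchemes P ↔ ForThreeTermSystems P) := by
    intro P hP
    have h := three_iff short_int hP
    constructor
    · intro h1
      exact h.mp fun X hX => h1 X hX.1 hX.2
    · intro h1 X hX1 hX2
      exact h.mpr h1 X ⟨hX1, hX2, fun h => h.elim⟩
  exact ⟨key _ clo_co, fun A hA => key _ (clo_formula hA)⟩

end Pool.Agent.Results.MP_666bea_ag.OrdersOfThreeTermSystems
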